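import Pool.Agent.L5helper85.TubeNeg

/-!
# Weak versus strong closure of homeomorphisms on a Lipschitz domain, integer exponents

For all integers `2 ≤ p ≤ n - 1` (written `n = p + 1 + q`, `q ≥ 0`), the product of the spherical
shell `{1 < |y| < 2}` of `ℝ^(p+1)` and the unit ball of `ℝ^q` carries a map that is a weak
`W^{1,p}` limit of its self-homeomorphisms, but not a strong one.  The map is
`f (y, z) = (|y| e, z)`.
-/

set_option autoImplicit false

open MeasureTheory Set Filter Topology Metric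
open scoped ENNReal NNReal InnerProductSpace

namespace Pool.Agent.Results.MP_a6162f_an.TubeIntegerP

open Pool.Agent.L5helper85.Sob Pool.Agent.L5helper85.Tube
open Pool.Agent.Results.MP_fc472d_an.ShellWeakNotStrong (tk one_lt_tk)

/-- The set of the points `(y, z)` of `ℝ^(p+1) × ℝ^q = ℝ^(p+1+q)` with `1 < |y| < 2` and
`|z| < 1`; `y` consists of the first `p + 1` coordinates and `z` of the last `q` ones. -/
def shellBall (p q : ℕ) : Set (Eu (p + 1 + q)) :=
  {x | 1 < ∑ i : Fin (p + 1), x (Fin.castAdd q i) ^ 2 ∧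
    ∑ i : Fin (p + 1), x (Fin.castAdd q i) ^ 2 < 4 ∧
    ∑ j : Fin q, x (Fin.natAdd (p + 1) j) ^ 2 < 1}

/-- **Theorem.** Let `p ≥ 2`, `q ≥ 0`, `n = p + 1 + q`, and let `Ω` be the product of the spherical
shell `{1 < |y| < 2}` in `ℝ^(p+1)` and the unit ball of `ℝ^q`. There is a map `f` of `Ω` into `Ω`
which belongs to the weak but not to the strong `W^{1,p}` closure of the homeomorphisms of `Ω`
onto `Ω`. -/
theorem result (p q : ℕ) (hp : 2 ≤ p) :
    IsOpen (shellBall p q) ∧ IsConnected (shellBall p q) ∧ Bornology.IsBounded (shellBall p q) ∧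
    ∃ f : Eu (p + 1 + q) → Eu (p + 1 + q), (∀ x ∈ shellBall p q, f x ∈ shellBall p q) ∧
      f ∈ weakClosure (p : ℝ≥0∞) (shellBall p q) (shellBall p q) ∧
      f ∉ strongClosure (p : ℝ≥0∞) (shellBall p q) (shellBall p q) := by
  have hms := (tube_open (m := p) (q := q)).measurableSet
  refine ⟨tube_open (m := p) (q := q), tube_conn (by omega), tube_bdd, fl p q, fl_maps, ?_, ?_⟩
  · refine ⟨?_, dl p q, fun k => tf p q (tk k), fun k => fderiv ℝ (tf p q (tk k)),
      isSobolev_fl _, fun k => ⟨?_, isSobolev_tf (by omega) (one_lt_tk k)⟩, weakConv_tf hp⟩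
    · have hae : ∀ᵐ x ∂((volume : Measure (Eu (p + 1 + q))).restrict (shellBall p q)),
          x ∈ tube p q := ae_restrict_mem hms
      filter_upwards [hae] with x hx
      exact subset_closure (fl_maps hx)
    · obtain ⟨h1, h2, g, h3, h4⟩ := tf_diffeo (m := p) (q := q) (one_lt_tk k)
      exact ⟨h1, h2.continuousOn, g, h3, h4.continuousOn⟩
  · rintro ⟨-, Df, F, DF, hf, hF, hlim⟩
    choose G hG using fun k => (hF k).1.2.2
    exact not_strong (by omega) (fun k => (hF k).1.2.1) (fun k => (hG k).2)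
      (fun k => (hF k).1.1) (fun k => (hG k).1) (fun k => (hF k).2) hf hlim

end Pool.Agent.Results.MP_a6162f_an.TubeIntegerP
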